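import Pool.Agent.W978.QN.Stm
import Pool.Agent.W82.QM.PAR

/-!
Project QN (helper978): primitive vectors on a plane (S_R).
-/

set_option autoImplicit false

namespace Pool.Agent.W150.QN

open Pool.Agent.W978.QN

lemma ct_bez (w : Fin 3 → ℤ) (hw : w ≠ 0) : ∃ (w' u : Fin 3 → ℤ), 0 < ct w ∧
    (∀ a, w a = (ct w : ℤ) * w' a) ∧ ∑ a, u a * w' a = 1 := by
  have hg : 0 < ct w := by
    rw [Nat.pos_iff_ne_zero]
    intro h
    unfold ct at h
    rw [Nat.gcd_eq_zero_iff, Int.gcd_eq_zero_iff, Int.natAbs_eq_zero] at h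
    apply hw
    funext a
    fin_cases a
    · exact h.1.1
    · exact h.1.2
    · exact h.2
  have hgz : (ct w : ℤ) ≠ 0 := by exact_mod_cast hg.ne'
  have h00 : (ct w : ℤ) ∣ (Int.gcd (w 0) (w 1) : ℤ) :=
    Int.natCast_dvd_natCast.2 (Nat.gcd_dvd_left _ _)
  have h0 : (ct w : ℤ) ∣ w 0 := h00.trans (Int.gcd_dvd_left ..)
  have h1 : (ct w : ℤ) ∣ w 1 := h00.trans (Int.gcd_dvd_right ..)
  have h2 : (ct w : ℤ) ∣ w 2 := Int.natCast_dvd.2 (Nat.gcd_dvd_right _ _)
  obtain ⟨x0, hx0⟩ := h0
  obtain ⟨x1, hx1⟩ := h1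
  obtain ⟨x2, hx2⟩ := h2
  have e1 : (ct w : ℤ) = (Int.gcd (w 0) (w 1) : ℤ) * Int.gcdA (Int.gcd (w 0) (w 1)) (w 2) +
      w 2 * Int.gcdB (Int.gcd (w 0) (w 1)) (w 2) := by
    have := Int.gcd_eq_gcd_ab (Int.gcd (w 0) (w 1) : ℤ) (w 2)
    rw [← this]
    rfl
  have e2 := Int.gcd_eq_gcd_ab (w 0) (w 1)
  set A := Int.gcdA (Int.gcd (w 0) (w 1)) (w 2)
  set B := Int.gcdB (Int.gcd (w 0) (w 1)) (w 2)
  set A' := Int.gcdA (w 0) (w 1)
  set B' := Int.gcdB (w 0) (w 1)
  refine ⟨![x0, x1, x2], ![A' * A, B' * A, B], hg, ?_, ?_⟩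
  · intro a
    fin_cases a
    · exact hx0
    · exact hx1
    · exact hx2
  · rw [Fin.sum_univ_three]
    simp only [Matrix.cons_val_zero, Matrix.cons_val_one, Matrix.cons_val]
    apply mul_left_cancel₀ hgz
    rw [mul_one]
    calc (ct w : ℤ) * (A' * A * x0 + B' * A * x1 + B * x2) =
        A' * A * (ct w * x0) + B' * A * (ct w * x1) + B * (ct w * x2) := by ring
      _ = A' * A * w 0 + B' * A * w 1 + B * w 2 := by rw [← hx0, ← hx1, ← hx2]
      _ = (ct w : ℤ) := by rw [e1, e2]; ring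

lemma det_ge (w w' u r r' : Fin 3 → ℤ) (g : ℤ) (i j k : Fin 3) (hg : 0 < g)
    (hs : ∀ f : Fin 3 → ℤ, ∑ a, f a = f i + f j + f k)
    (hc : ∀ a : Fin 3, a = i ∨ a = j ∨ a = k)
    (hw : ∀ a, w a = g * w' a) (hu : ∑ a, u a * w' a = 1) (hk : w k ≠ 0)
    (hr : Prim r) (hr' : Prim r') (h1 : ∑ a, w a * r a = 0) (h2 : ∑ a, w a * r' a = 0)
    (hne : r' ≠ r) (hne' : r' ≠ -r) : |w k| ≤ |r i * r' j - r j * r' i| * g := by
  rw [hs] at hu h1 h2
  rw [hw, hw, hw] at h1 h2
  have k1 : w' i * r i + w' j * r j + w' k * r k = 0 := by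
    apply mul_left_cancel₀ hg.ne'
    rw [mul_zero]
    linarith
  have k2 : w' i * r' i + w' j * r' j + w' k * r' k = 0 := by
    apply mul_left_cancel₀ hg.ne'
    rw [mul_zero]
    linarith
  have hk' : w' k ≠ 0 := by
    intro h
    apply hk
    rw [hw, h, mul_zero]
  have r1 : (r i * r' j - r j * r' i) * w' i = (r j * r' k - r k * r' j) * w' k := by
    linear_combination r' j * k1 - r j * k2
  have r2 : (r i * r' j - r j * r' i) * w' j = (r k * r' i - r i * r' k) * w' k := by
    linear_combination r i * k2 - r' i * k1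
  by_cases hz : r i * r' j - r j * r' i = 0
  · exfalso
    rw [hz, zero_mul] at r1 r2
    have z1 : r j * r' k - r k * r' j = 0 := by
      rcases mul_eq_zero.1 r1.symm with h | h
      · exact h
      · exact absurd h hk'
    have z2 : r k * r' i - r i * r' k = 0 := by
      rcases mul_eq_zero.1 r2.symm with h | h
      · exact h
      · exact absurd h hk'
    obtain ⟨u1, hu1⟩ := hr
    obtain ⟨u2, hu2⟩ := hr'
    rw [hs] at hu1 hu2
    set m := u1 i * r' i + u1 j * r' j + u1 k * r' k with hm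
    have m1 : r' i = m * r i := by
      linear_combination (-r' i) * hu1 + r i * hm - u1 j * hz + u1 k * z2
    have m2 : r' j = m * r j := by
      linear_combination (-r' j) * hu1 + r j * hm + u1 i * hz - u1 k * z1
    have m3 : r' k = m * r k := by
      linear_combination (-r' k) * hu1 + r k * hm - u1 i * z2 + u1 j * z1
    have m4 : m * (u2 i * r i + u2 j * r j + u2 k * r k) = 1 := by
      rw [← hu2, m1, m2, m3]
      ring
    rcases Int.eq_one_or_neg_one_of_mul_eq_one m4 with h | h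
    · apply hne
      funext a
      rw [h] at m1 m2 m3
      rcases hc a with rfl | rfl | rfl
      · linarith
      · linarith
      · linarith
    · apply hne'
      funext a
      rw [h] at m1 m2 m3
      rw [Pi.neg_apply]
      rcases hc a with rfl | rfl | rfl
      · linarith
      · linarith
      · linarith
  · have hdiv : r i * r' j - r j * r' i = w' k * (u i * (r j * r' k - r k * r' j) +
        u j * (r k * r' i - r i * r' k) + u k * (r i * r' j - r j * r' i)) := by
      linear_combination (-(r i * r' j - r j * r' i)) * hu + u i * r1 + u j * r2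
    set q := u i * (r j * r' k - r k * r' j) +
        u j * (r k * r' i - r i * r' k) + u k * (r i * r' j - r j * r' i) with hq
    have hq0 : q ≠ 0 := by
      intro h
      apply hz
      rw [hdiv, h, mul_zero]
    have hq1 : 1 ≤ |q| := Int.one_le_abs hq0
    rw [hdiv, hw k, abs_mul, abs_mul, abs_of_pos hg]
    have : 0 ≤ |w' k| := abs_nonneg _
    nlinarith [mul_nonneg (mul_nonneg hg.le this) (by linarith : (0:ℤ) ≤ |q| - 1)]

open Classical in
lemma core (w : Fin 3 → ℤ) (hw0 : w ≠ 0) (R : ℕ) (hR : 1 ≤ R) (i j k : Fin 3)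
    (hs : ∀ f : Fin 3 → ℤ, ∑ a, f a = f i + f j + f k)
    (hc : ∀ a : Fin 3, a = i ∨ a = j ∨ a = k) (hk : |w k| = nm w) (hkn : w k ≠ 0) :
    (((bx R).filter fun r => Prim r ∧ ∑ k, w k * r k = 0).card : ℝ) ≤
    4 + 8 * (R : ℝ) ^ 2 * ct w / nm w := by
  obtain ⟨w', u, hg, hw, hu⟩ := ct_bez w hw0
  set T := (bx R).filter fun r => Prim r ∧ ∑ k, w k * r k = 0 with hT
  have hmem : ∀ r ∈ T, (∀ a, |r a| ≤ (R : ℤ)) ∧ Prim r ∧ ∑ k, w k * r k = 0 := by
    intro r hr
    rw [hT, Finset.mem_filter] at hr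
    refine ⟨?_, hr.2⟩
    intro a
    have h1 := hr.1
    unfold bx at h1
    rw [Fintype.mem_piFinset] at h1
    have h2 := Finset.mem_Icc.1 (h1 a)
    exact abs_le.2 h2
  have hnmpos : (0 : ℝ) < (nm w : ℝ) := by
    rw [← hk]
    exact_mod_cast abs_pos.2 hkn
  have hctpos : (0 : ℝ) < (ct w : ℝ) := by exact_mod_cast hg
  have hRpos : (0 : ℝ) < (R : ℝ) := by exact_mod_cast hR
  let F : (Fin 3 → ℤ) → (Fin 2 → ℤ) := fun r => ![r i, r j]
  have hinj : Set.InjOn F (T : Set (Fin 3 → ℤ)) := by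
    intro r hr r' hr' h
    obtain ⟨-, -, h1⟩ := hmem r hr
    obtain ⟨-, -, h2⟩ := hmem r' hr'
    rw [hs] at h1 h2
    have h3 : r i = r' i := congrFun h 0
    have h4 : r j = r' j := congrFun h 1
    have h5 : r k = r' k := by
      apply mul_left_cancel₀ hkn
      rw [h3, h4] at h1
      linarith
    funext a
    rcases hc a with rfl | rfl | rfl
    · exact h3
    · exact h4
    · exact h5
  have hcard : (T.image F).card = T.card := Finset.card_image_of_injOn hinj
  rw [← hcard]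
  have hpar := Pool.Agent.W82.QM.par (T.image F) ![1, 0] ![0, 1] (R : ℝ) (R : ℝ)
    ((nm w : ℝ) / ct w) 1 hRpos hRpos (by positivity) one_pos (by simp) ?_ ?_
  · refine hpar.trans (le_of_eq ?_)
    field_simp
  · intro v hv
    rw [Finset.mem_image] at hv
    obtain ⟨r, hr, rfl⟩ := hv
    obtain ⟨hb, hp, h1⟩ := hmem r hr
    refine ⟨?_, ?_, ?_⟩
    · intro h
      have h3 : r i = 0 := congrFun h 0
      have h4 : r j = 0 := congrFun h 1
      rw [hs] at h1
      have h5 : r k = 0 := by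
        apply mul_left_cancel₀ hkn
        rw [h3, h4] at h1
        linarith
      obtain ⟨u1, hu1⟩ := hp
      rw [hs, h3, h4, h5] at hu1
      simp at hu1
    · have := hb i
      simp only [F, Matrix.cons_val_zero, Matrix.cons_val_one, one_mul, zero_mul, add_zero]
      exact_mod_cast this
    · have := hb j
      simp only [F, Matrix.cons_val_zero, Matrix.cons_val_one, one_mul, zero_mul, zero_add]
      exact_mod_cast this
  · intro v hv v' hv' hne hne'
    rw [Finset.mem_image] at hv hv'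
    obtain ⟨r, hr, rfl⟩ := hv
    obtain ⟨r', hr', rfl⟩ := hv'
    obtain ⟨-, hp, h1⟩ := hmem r hr
    obtain ⟨-, hp', h2⟩ := hmem r' hr'
    have h3 := det_ge w w' u r r' (ct w : ℤ) i j k (by exact_mod_cast hg) hs hc hw hu hkn hp hp'
      h1 h2 (fun h => hne (by rw [h])) (fun h => hne' (by
        rw [h]
        funext a
        fin_cases a <;> rfl))
    rw [hk] at h3
    rw [div_le_iff₀ hctpos]
    simp only [F, Matrix.cons_val_zero, Matrix.cons_val_one]
    exact_mod_cast h3

theorem primPlane : S_R := by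
  intro w hw R hR
  have hnm : nm w = max (max |w 0| |w 1|) |w 2| := rfl
  have hex : ∃ k, |w k| = nm w := by
    rw [hnm]
    rcases max_choice (max |w 0| |w 1|) |w 2| with h | h
    · rw [h]
      rcases max_choice |w 0| |w 1| with h' | h'
      · exact ⟨0, h'.symm⟩
      · exact ⟨1, h'.symm⟩
    · exact ⟨2, h.symm⟩
  obtain ⟨k, hk⟩ := hex
  have hkn : w k ≠ 0 := by
    intro h
    rw [h, abs_zero] at hk
    rw [hnm] at hk
    apply hw
    have h0 : |w 0| ≤ 0 := by rw [hk]; exact le_max_of_le_left (le_max_left _ _)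
    have h1 : |w 1| ≤ 0 := by rw [hk]; exact le_max_of_le_left (le_max_right _ _)
    have h2 : |w 2| ≤ 0 := by rw [hk]; exact le_max_right _ _
    funext a
    fin_cases a
    · exact abs_nonpos_iff.1 h0
    · exact abs_nonpos_iff.1 h1
    · exact abs_nonpos_iff.1 h2
  have key : ∃ i j : Fin 3, (∀ f : Fin 3 → ℤ, ∑ a, f a = f i + f j + f k) ∧
      (∀ a : Fin 3, a = i ∨ a = j ∨ a = k) := by
    fin_cases k
    · refine ⟨1, 2, fun f => ?_, by decide⟩
      rw [Fin.sum_univ_three]
      simp only [Fin.zero_eta]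
      ring
    · refine ⟨0, 2, fun f => ?_, by decide⟩
      rw [Fin.sum_univ_three]
      simp only [Fin.mk_one]
      ring
    · refine ⟨0, 1, fun f => ?_, by decide⟩
      rw [Fin.sum_univ_three]
      rfl
  obtain ⟨i, j, hs, hc⟩ := key
  exact core w hw R hR i j k hs hc hk hkn

end Pool.Agent.W150.QN
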